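import Pool.Agent.H9.TwoPoint.Main

/-!
# A multigraded Hilbert scheme in three variables that is not connected
-/

namespace Pool.Agent.Results.MP_411355_ag.TwoPointHilbertScheme

open Pool.Agent.H9.FatPoint Pool.Agent.H9.TwoPoint

/-- Over every field `k`, the multigraded Hilbert scheme of `k[x, y, z]` for the grading by `ℤ²`
with degrees `(1, 0)`, `(-1, 2)`, `(0, 1)` and the Hilbert function `hilbT` (of total dimension
`18`) is isomorphic to the spectrum of `k × k`, which is nonempty and not connected. -/
theorem result (k : Type) [Field k] :
    IsRepresentedBy degT hilbT k (k × k) ∧ Nonempty (PrimeSpectrum (k × k)) ∧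
      ¬ PreconnectedSpace (PrimeSpectrum (k × k)) :=
  ⟨isRepresentedBy k, inferInstance, not_connected k⟩

end Pool.Agent.Results.MP_411355_ag.TwoPointHilbertScheme
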